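import Mathlib

/-!
Injective holomorphic maps of the unit ball of a complex inner product space `E` (a copy of `ℂⁿ`).
-/

set_option autoImplicit false

open Metric Set Filter

namespace Pool.Agent.H30.EVD

variable {E : Type} [NormedAddCommGroup E] [InnerProductSpace ℂ E]

/-- The class `S`: normalised injective holomorphic maps of the unit ball of `E`. -/
def InS (f : E → E) : Prop :=
  DifferentiableOn ℂ f (ball 0 1) ∧ InjOn f (ball 0 1) ∧ f 0 = 0 ∧ ∀ v, fderiv ℂ f 0 v = v

/-- Polynomials (in linear functionals `l_1, …, l_m`) are dense in the holomorphic functions on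
`D`. -/
def IsRunge (D : Set E) : Prop :=
  ∀ g : E → ℂ, DifferentiableOn ℂ g D → ∀ K : Set E, IsCompact K → K ⊆ D → ∀ δ : ℝ, 0 < δ →
    ∃ (m : ℕ) (l : Fin m → E →L[ℂ] ℂ) (p : MvPolynomial (Fin m) ℂ), ∀ z ∈ K,
      ‖g z - MvPolynomial.eval (fun i => l i z) p‖ < δ

/-- Holomorphic functions on `Ω` are dense in the holomorphic functions on `D`. -/
def RungePair (D Ω : Set E) : Prop :=
  ∀ g : E → ℂ, DifferentiableOn ℂ g D → ∀ K : Set E, IsCompact K → K ⊆ D → ∀ δ : ℝ, 0 < δ →
    ∃ h : E → ℂ, DifferentiableOn ℂ h Ω ∧ ∀ z ∈ K, ‖g z - h z‖ < δ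

/-- `f` is a locally uniform limit on the ball of injective entire maps with a common range. -/
def CommonRangeLimit (f : E → E) : Prop :=
  ∃ (Ω : Set E) (Ψ : ℕ → E → E),
    (∀ k, Differentiable ℂ (Ψ k) ∧ Function.Injective (Ψ k) ∧ range (Ψ k) = Ω) ∧
    TendstoLocallyUniformlyOn Ψ f atTop (ball 0 1)

end Pool.Agent.H30.EVD
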