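import Pool.Agent.H6.FB.Main
import Pool.Agent.H30.EVD.Defs

set_option autoImplicit false

open Metric Set Filter Topology

namespace Pool.Agent.H30.EVD

variable {E : Type} [NormedAddCommGroup E] [InnerProductSpace ℂ E] {n : ℕ}

/-- complex Euclidean space -/
abbrev EE (n : ℕ) := EuclideanSpace ℂ (Fin n)

section
variable (e : E ≃ₗᵢ[ℂ] EE n)

lemma pre_ball (r : ℝ) : e ⁻¹' ball 0 r = ball 0 r := by
  ext z; simp

lemma pre_cball (r : ℝ) : e ⁻¹' closedBall 0 r = closedBall 0 r := by
  ext z; simp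

lemma image_conj (f' : EE n → EE n) :
    (fun z => e.symm (f' (e z))) '' ball (0 : E) 1 = e ⁻¹' (f' '' ball 0 1) := by
  ext w
  constructor
  · rintro ⟨z, hz, rfl⟩
    refine ⟨e z, by simpa using hz, ?_⟩
    simp
  · rintro ⟨z, hz, h⟩
    refine ⟨e.symm z, by simpa using hz, ?_⟩
    simp [h]

lemma inS_conj {f' : EE n → EE n} (h1 : DifferentiableOn ℂ f' (ball 0 1))
    (h2 : InjOn f' (ball 0 1)) (h3 : f' 0 = 0)
    (h4 : fderiv ℂ f' 0 = ContinuousLinearMap.id ℂ (EE n)) :
    InS (fun z => e.symm (f' (e z))) := by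
  have hm : MapsTo e (ball (0 : E) 1) (ball 0 1) := fun z hz => by simpa using hz
  refine ⟨?_, ?_, by simp [h3], fun v => ?_⟩
  · exact e.symm.toContinuousLinearEquiv.differentiable.comp_differentiableOn
      (h1.comp e.toContinuousLinearEquiv.differentiable.differentiableOn hm)
  · intro a ha b hb hab
    exact e.injective (h2 (hm ha) (hm hb) (e.symm.injective hab))
  · have hd : HasFDerivAt f' (ContinuousLinearMap.id ℂ (EE n)) (e 0) := by
      rw [map_zero, ← h4]
      exact ((h1 0 (mem_ball_self one_pos)).differentiableAt (ball_mem_nhds _ one_pos)).hasFDerivAt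
    have h5 : HasFDerivAt (fun z => e.symm (f' (e z)))
        (((e.symm.toContinuousLinearEquiv : EE n →L[ℂ] E).comp
          (ContinuousLinearMap.id ℂ (EE n))).comp
          (e.toContinuousLinearEquiv : E →L[ℂ] EE n)) 0 :=
      (e.symm.toContinuousLinearEquiv.hasFDerivAt.comp (e 0) hd).comp 0
        e.toContinuousLinearEquiv.hasFDerivAt
    rw [h5.fderiv]
    simp

lemma poly_conj (m : ℕ) (l : Fin m → E →L[ℂ] ℂ) (p : MvPolynomial (Fin m) ℂ) :
    ∃ q : MvPolynomial (Fin n) ℂ, ∀ z : EE n,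
      MvPolynomial.eval (fun i => EuclideanSpace.proj i z) q =
        MvPolynomial.eval (fun i => l i (e.symm z)) p := by
  refine ⟨MvPolynomial.bind₁ (fun i => ∑ j, MvPolynomial.C (l i (e.symm (EuclideanSpace.single j 1)))
    * MvPolynomial.X j) p, fun z => ?_⟩
  have h : ∀ i, l i (e.symm z) = ∑ j, l i (e.symm (EuclideanSpace.single j 1)) * z j := fun i => by
    have hz : z = ∑ j, z j • EuclideanSpace.single j (1 : ℂ) := by
      ext k
      simp [Pi.single_apply, Finset.sum_apply]
    conv_lhs => rw [hz]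
    rw [map_sum, map_sum]
    refine Finset.sum_congr rfl fun j _ => ?_
    rw [map_smul, map_smul, smul_eq_mul, mul_comm]
  rw [← MvPolynomial.coe_aeval_eq_eval, ← MvPolynomial.coe_aeval_eq_eval, RingHom.coe_coe,
    RingHom.coe_coe, MvPolynomial.aeval_bind₁]
  congr 2
  funext i
  rw [h i]
  simp

end

theorem main (E : Type) [NormedAddCommGroup E] [InnerProductSpace ℂ E]
    (hE : 2 ≤ Module.finrank ℂ E) (F : E → E) (hF : InS F) (r ε : ℝ) (hr : r < 1) (hε : 0 < ε) :
    ∃ f : E → E,
      InS f ∧ ContinuousOn f (closedBall 0 1) ∧ InjOn f (closedBall 0 1) ∧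
      (∀ z, ‖z‖ ≤ r → ‖f z - F z‖ < ε) ∧
      ¬ IsRunge (f '' ball 0 1) ∧
      (∀ Ω, IsOpen Ω → IsConnected Ω → f '' ball 0 1 ⊂ Ω → ¬ RungePair (f '' ball 0 1) Ω) ∧
      ¬ CommonRangeLimit f := by
  have : FiniteDimensional ℂ E := FiniteDimensional.of_finrank_pos (by omega)
  let e : E ≃ₗᵢ[ℂ] EE (Module.finrank ℂ E) := (stdOrthonormalBasis ℂ E).repr
  have hm : ∀ r : ℝ, MapsTo e (ball (0 : E) r) (ball 0 r) := fun r z hz => by simpa using hz
  have hms : ∀ r : ℝ, MapsTo e.symm (ball 0 r) (ball (0 : E) r) := fun r z hz => by simpa using hz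
  have hmc : ∀ r : ℝ, MapsTo e (closedBall (0 : E) r) (closedBall 0 r) :=
    fun r z hz => by simpa using hz
  have hed : Differentiable ℂ e := e.toContinuousLinearEquiv.differentiable
  have hesd : Differentiable ℂ e.symm := e.symm.toContinuousLinearEquiv.differentiable
  have hfd : fderiv ℂ (fun z => e (F (e.symm z))) 0 =
      ContinuousLinearMap.id ℂ (EE (Module.finrank ℂ E)) := by
    have h0 : fderiv ℂ F 0 = ContinuousLinearMap.id ℂ E := ContinuousLinearMap.ext hF.2.2.2
    have hd : HasFDerivAt F (ContinuousLinearMap.id ℂ E) (e.symm 0) := by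
      rw [map_zero, ← h0]
      exact ((hF.1 0 (mem_ball_self one_pos)).differentiableAt
        (ball_mem_nhds _ one_pos)).hasFDerivAt
    have h5 : HasFDerivAt (fun z => e (F (e.symm z)))
        (((e.toContinuousLinearEquiv : E →L[ℂ] EE (Module.finrank ℂ E)).comp
          (ContinuousLinearMap.id ℂ E)).comp
          (e.symm.toContinuousLinearEquiv : EE (Module.finrank ℂ E) →L[ℂ] E)) 0 :=
      (e.toContinuousLinearEquiv.hasFDerivAt.comp (e.symm 0) hd).comp 0
        e.symm.toContinuousLinearEquiv.hasFDerivAt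
    rw [h5.fderiv]
    ext v
    simp
  obtain ⟨f', h1, h2, h3, h4, h5, h6, h7, h8, h9⟩ :=
    Pool.Agent.H6.FB.main _ hE (fun z => e (F (e.symm z)))
      (hed.comp_differentiableOn (hF.1.comp hesd.differentiableOn (hms 1)))
      (fun a ha b hb hab => e.symm.injective (hF.2.1 (hms 1 ha) (hms 1 hb) (e.injective hab)))
      (by simp [hF.2.2.1]) hfd r ε hr hε
  refine ⟨fun z => e.symm (f' (e z)), inS_conj e h3 (h2.mono ball_subset_closedBall) h4 h5,
    e.symm.continuous.comp_continuousOn (h1.comp e.continuous.continuousOn (hmc 1)),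
    fun a ha b hb hab => e.injective (h2 (hmc 1 ha) (hmc 1 hb) (e.symm.injective hab)),
    fun z hz => ?_, ?_, ?_, ?_⟩
  · have := h6 (e z) (by simpa using hz)
    rw [← e.symm.norm_map, map_sub] at this
    simpa using this
  · rw [image_conj]
    intro hR
    refine h7 fun g hg K hK hKD δ hδ => ?_
    obtain ⟨m, l, p, hp⟩ := hR (fun z => g (e z)) (hg.comp hed.differentiableOn fun z hz => hz)
      (e ⁻¹' K) (e.toHomeomorph.isCompact_preimage.2 hK) (fun z hz => hKD hz) δ hδ
    obtain ⟨q, hq⟩ := poly_conj e m l p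
    refine ⟨q, fun z hz => ?_⟩
    rw [hq]
    have := hp (e.symm z) (by simpa using hz)
    simpa using this
  · intro Ω hΩ hΩc hD hR
    rw [image_conj] at hD hR
    refine h8 (e.symm ⁻¹' Ω) (hΩ.preimage e.symm.continuous) ?_ ?_ fun g hg K hK hKD δ hδ => ?_
    · have : e.symm ⁻¹' Ω = e '' Ω := by
        ext z
        constructor
        · intro hz; exact ⟨e.symm z, hz, by simp⟩
        · rintro ⟨w, hw, rfl⟩; simpa using hw
      rw [this]
      exact hΩc.image _ e.continuous.continuousOn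
    · refine ⟨fun z hz => hD.1 (by simpa using hz), fun h => hD.2 fun z hz => ?_⟩
      exact h (by simpa using hz)
    · obtain ⟨h, hh, hp⟩ := hR (fun z => g (e z)) (hg.comp hed.differentiableOn fun z hz => hz)
        (e ⁻¹' K) (e.toHomeomorph.isCompact_preimage.2 hK) (fun z hz => hKD hz) δ hδ
      refine ⟨fun z => h (e.symm z), hh.comp hesd.differentiableOn fun z hz => hz, fun z hz => ?_⟩
      have := hp (e.symm z) (by simpa using hz)
      simpa using this
  · rintro ⟨Ω, Ψ, hΨ, hlim⟩
    refine h9 (e.symm ⁻¹' Ω) (fun k z => e (Ψ k (e.symm z))) (fun k => ⟨?_, ?_, ?_⟩) ?_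
    · exact hed.comp ((hΨ k).1.comp hesd)
    · intro a b hab
      exact e.symm.injective ((hΨ k).2.1 (e.injective hab))
    · rw [← (hΨ k).2.2]
      ext z
      constructor
      · rintro ⟨w, rfl⟩; exact ⟨e.symm w, by simp⟩
      · rintro ⟨w, hw⟩; exact ⟨e w, by simp [hw]⟩
    · have h1 := e.isometry.uniformContinuous.comp_tendstoLocallyUniformlyOn
        (hlim.comp e.symm (hms 1) e.symm.continuous.continuousOn)
      refine h1.congr_right fun z hz => ?_
      simp

end Pool.Agent.H30.EVD
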